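import Pool.Agent.Q224.UM.ABUcore

set_option autoImplicit false

namespace Pool.Agent.Q261.UM

open Filter Topology MeasureTheory Complex ProbabilityTheory Pool.Agent.Q224.UM

noncomputable section

theorem eval_eq (p : Polynomial ℝ) {K : ℕ} (hp : p.natDegree ≤ K) (x : ℝ) :
    p.eval x = ∑ i ∈ Finset.range (K + 1), p.coeff i * x ^ i :=
  Polynomial.eval_eq_sum_range' (Nat.lt_succ_of_le hp) x

theorem integrable_poly (p : Polynomial ℝ) {μ : Measure ℝ} {K : ℕ} (hp : p.natDegree ≤ K)
    (hi : ∀ k : ℕ, k ≤ K → Integrable (fun x : ℝ => x ^ k) μ) :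
    Integrable (fun x => p.eval x) μ := by
  simp only [eval_eq p hp]
  exact integrable_finsetSum _ fun i hi' =>
    (hi i (Nat.lt_succ_iff.1 (Finset.mem_range.1 hi'))).const_mul _

theorem integral_poly (p : Polynomial ℝ) {μ : Measure ℝ} {K : ℕ} (hp : p.natDegree ≤ K)
    (hi : ∀ k : ℕ, k ≤ K → Integrable (fun x : ℝ => x ^ k) μ) :
    ∫ x, p.eval x ∂μ = ∑ i ∈ Finset.range (K + 1), p.coeff i * ∫ x, x ^ i ∂μ := by
  simp only [eval_eq p hp]
  rw [integral_finsetSum _ fun i hi' =>
    (hi i (Nat.lt_succ_iff.1 (Finset.mem_range.1 hi'))).const_mul _]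
  exact Finset.sum_congr rfl fun i _ => integral_const_mul _ _

theorem poly_close (p : Polynomial ℝ) {μ : Measure ℝ} {K : ℕ} (hp : p.natDegree ≤ K) {e : ℝ}
    (hi : ∀ k : ℕ, k ≤ K → Integrable (fun x : ℝ => x ^ k) μ ∧
      |(∫ x, x ^ k ∂μ) - ∫ x, x ^ k ∂(gaussianReal 0 1)| ≤ e) :
    |(∫ x, p.eval x ∂μ) - ∫ x, p.eval x ∂(gaussianReal 0 1)| ≤
      (∑ i ∈ Finset.range (K + 1), |p.coeff i|) * e := by
  rw [integral_poly p hp fun k hk => (hi k hk).1,
    integral_poly p hp fun k _ => integrable_pow_gauss k, ← Finset.sum_sub_distrib,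
    Finset.sum_mul]
  refine (Finset.abs_sum_le_sum_abs _ _).trans (Finset.sum_le_sum fun i hi' => ?_)
  rw [← mul_sub, abs_mul]
  exact mul_le_mul_of_nonneg_left (hi i (Nat.lt_succ_iff.1 (Finset.mem_range.1 hi'))).2
    (abs_nonneg _)

theorem memLp_exp (t : ℝ) :
    MemLp (fun x : ℝ => Real.exp (|t| * |x|)) 2 (gaussianReal 0 1) := by
  rw [memLp_two_iff_integrable_sq (by fun_prop)]
  have hi1 : Integrable (fun x : ℝ => Real.exp ((2 * |t|) * x)) (gaussianReal 0 1) :=
    integrable_exp_mul_gaussianReal _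
  have hi2 : Integrable (fun x : ℝ => Real.exp ((-(2 * |t|)) * x)) (gaussianReal 0 1) :=
    integrable_exp_mul_gaussianReal _
  refine Integrable.mono' (hi1.add hi2) (by fun_prop) (Filter.Eventually.of_forall fun x => ?_)
  simp only [Pi.add_apply]
  rw [Real.norm_of_nonneg (by positivity), ← Real.exp_nat_mul]
  rcases le_total 0 x with hx | hx
  · rw [abs_of_nonneg hx]
    have h1 := Real.exp_pos (-(2 * |t|) * x)
    have h2 : ((2 : ℕ) : ℝ) * (|t| * x) = 2 * |t| * x := by push_cast; ring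
    rw [h2]
    linarith
  · rw [abs_of_nonpos hx]
    have h1 := Real.exp_pos ((2 * |t|) * x)
    have h2 : ((2 : ℕ) : ℝ) * (|t| * -x) = -(2 * |t|) * x := by push_cast; ring
    rw [h2]
    linarith

/-- a square integrable function orthogonal to the powers is orthogonal to the exponentials -/
theorem char_zero {f : ℝ → ℝ} (hf : MemLp f 2 (gaussianReal 0 1))
    (h : ∀ k : ℕ, ∫ x, f x * x ^ k ∂(gaussianReal 0 1) = 0) (t : ℝ) :
    ∫ x, (f x : ℂ) * Complex.exp (((t * x : ℝ) : ℂ) * I) ∂(gaussianReal 0 1) = 0 := by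
  have hint : Integrable (fun x => ‖f x‖ * Real.exp (|t| * |x|)) (gaussianReal 0 1) :=
    hf.norm.integrable_mul (memLp_exp t)
  have hlim : Tendsto (fun n : ℕ => ∫ x, (f x : ℂ) * ∑ k ∈ Finset.range n,
      (((t * x : ℝ) : ℂ) * I) ^ k / (k.factorial : ℂ) ∂(gaussianReal 0 1)) atTop
      (𝓝 (∫ x, (f x : ℂ) * Complex.exp (((t * x : ℝ) : ℂ) * I) ∂(gaussianReal 0 1))) := by
    refine tendsto_integral_of_dominated_convergence
      (fun x => ‖f x‖ * Real.exp (|t| * |x|)) (fun n => ?_) hint (fun n => ?_) ?_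
    · refine AEStronglyMeasurable.mul ?_ ?_
      · exact Complex.continuous_ofReal.comp_aestronglyMeasurable hf.1
      · exact Continuous.aestronglyMeasurable (by fun_prop)
    · refine Filter.Eventually.of_forall fun x => ?_
      rw [norm_mul, Complex.norm_real]
      refine mul_le_mul_of_nonneg_left ?_ (norm_nonneg _)
      refine (norm_sum_le _ _).trans ?_
      refine le_trans (le_of_eq ?_) (Real.sum_le_exp_of_nonneg (x := |t| * |x|) (by positivity) n)
      refine Finset.sum_congr rfl fun k _ => ?_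
      rw [norm_div, norm_pow, norm_mul, Complex.norm_I, mul_one, Complex.norm_real,
        Complex.norm_natCast, Real.norm_eq_abs, abs_mul]
    · refine Filter.Eventually.of_forall fun x => ?_
      refine Tendsto.const_mul _ ?_
      have := (NormedSpace.expSeries_div_hasSum_exp (𝔸 := ℂ) (((t * x : ℝ) : ℂ) * I)).tendsto_sum_nat
      rwa [← Complex.exp_eq_exp_ℂ] at this
  have hzero : ∀ n : ℕ, ∫ x, (f x : ℂ) * ∑ k ∈ Finset.range n,
      (((t * x : ℝ) : ℂ) * I) ^ k / (k.factorial : ℂ) ∂(gaussianReal 0 1) = 0 := by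
    intro n
    have hk : ∀ k : ℕ, Integrable (fun x => f x * x ^ k) (gaussianReal 0 1) := by
      intro k
      have hx : MemLp (fun x : ℝ => x ^ k) 2 (gaussianReal 0 1) := by
        rw [memLp_two_iff_integrable_sq (by fun_prop)]
        simp only [← pow_mul]
        exact integrable_pow_gauss _
      exact hf.integrable_mul hx
    have e : ∀ x : ℝ, (f x : ℂ) * ∑ k ∈ Finset.range n,
        (((t * x : ℝ) : ℂ) * I) ^ k / (k.factorial : ℂ) =
        ∑ k ∈ Finset.range n, ((t : ℂ) * I) ^ k / (k.factorial : ℂ) * ((f x * x ^ k : ℝ) : ℂ) := by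
      intro x
      rw [Finset.mul_sum]
      refine Finset.sum_congr rfl fun k _ => ?_
      push_cast
      rw [show (t : ℂ) * (x : ℂ) * I = ((t : ℂ) * I) * (x : ℂ) by ring, mul_pow]
      ring
    simp only [e]
    rw [integral_finsetSum _ fun k _ => ((hk k).ofReal).const_mul _]
    refine Finset.sum_eq_zero fun k _ => ?_
    rw [integral_const_mul, integral_complex_ofReal, h k]
    simp
  simp only [hzero] at hlim
  exact (tendsto_nhds_unique hlim tendsto_const_nhds)

theorem ae_zero {f : ℝ → ℝ} (hf : MemLp f 2 (gaussianReal 0 1))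
    (h : ∀ k : ℕ, ∫ x, f x * x ^ k ∂(gaussianReal 0 1) = 0) : f =ᵐ[gaussianReal 0 1] 0 := by
  have hfi : Integrable f (gaussianReal 0 1) := hf.integrable one_le_two
  have h1 : IsFiniteMeasure ((gaussianReal 0 1).withDensity (fun x => ENNReal.ofReal (f x))) :=
    isFiniteMeasure_withDensity_ofReal hfi.2
  have h2 : IsFiniteMeasure ((gaussianReal 0 1).withDensity (fun x => ENNReal.ofReal (-f x))) :=
    isFiniteMeasure_withDensity_ofReal hfi.neg.2
  have hm1 : AEMeasurable (fun x => ENNReal.ofReal (f x)) (gaussianReal 0 1) :=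
    hfi.1.aemeasurable.ennreal_ofReal
  have hm2 : AEMeasurable (fun x => ENNReal.ofReal (-f x)) (gaussianReal 0 1) :=
    hfi.neg.1.aemeasurable.ennreal_ofReal
  have hmeas : (gaussianReal 0 1).withDensity (fun x => ENNReal.ofReal (f x)) =
      (gaussianReal 0 1).withDensity (fun x => ENNReal.ofReal (-f x)) := by
    refine Measure.ext_of_charFun (funext fun t => ?_)
    rw [charFun_apply_real, charFun_apply_real,
      integral_withDensity_eq_integral_toReal_smul₀ hm1
        (Filter.Eventually.of_forall fun x => ENNReal.ofReal_lt_top),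
      integral_withDensity_eq_integral_toReal_smul₀ hm2
        (Filter.Eventually.of_forall fun x => ENNReal.ofReal_lt_top)]
    have hI : ∀ g : ℝ → ℝ, Integrable g (gaussianReal 0 1) →
        Integrable (fun x : ℝ => (ENNReal.ofReal (g x)).toReal • Complex.exp ((t : ℂ) * (x : ℂ) * I))
          (gaussianReal 0 1) := by
      intro g hg
      refine Integrable.mono' hg.norm ?_ (Filter.Eventually.of_forall fun x => ?_)
      · have hc : Continuous (fun x : ℝ => Complex.exp ((t : ℂ) * (x : ℂ) * I)) := by fun_prop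
        exact (hg.1.aemeasurable.ennreal_ofReal.ennreal_toReal).aestronglyMeasurable.smul
          hc.aestronglyMeasurable
      · rw [norm_smul, ENNReal.toReal_ofReal']
        have e1 : ‖Complex.exp ((t : ℂ) * (x : ℂ) * I)‖ = 1 := by
          rw [← Complex.ofReal_mul, Complex.norm_exp_ofReal_mul_I]
        rw [e1, mul_one, Real.norm_of_nonneg (le_max_right _ _), Real.norm_eq_abs]
        exact max_le (le_abs_self _) (abs_nonneg _)
    have hd := integral_sub (hI f hfi) (hI (fun x => -f x) hfi.neg)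
    have he : (∫ x, ((ENNReal.ofReal (f x)).toReal • Complex.exp ((t : ℂ) * (x : ℂ) * I) -
        (ENNReal.ofReal (-f x)).toReal • Complex.exp ((t : ℂ) * (x : ℂ) * I)) ∂(gaussianReal 0 1)) = 0 := by
      rw [← char_zero hf h t]
      refine integral_congr_ae (Filter.Eventually.of_forall fun x => ?_)
      simp only
      rw [ENNReal.toReal_ofReal', ENNReal.toReal_ofReal', ← sub_smul, Complex.real_smul]
      have e1 : max (f x) 0 - max (-f x) 0 = f x := by
        rcases le_total 0 (f x) with h0 | h0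
        · rw [max_eq_left h0, max_eq_right (by linarith)]
          ring
        · rw [max_eq_right h0, max_eq_left (by linarith)]
          ring
      rw [e1]
      push_cast
      ring
    rw [he] at hd
    exact sub_eq_zero.1 hd.symm
  have hfin : ∫⁻ x, ENNReal.ofReal (f x) ∂(gaussianReal 0 1) ≠ ⊤ := hfi.lintegral_lt_top.ne
  have hae := (withDensity_eq_iff hm1 hm2 hfin).1 hmeas
  filter_upwards [hae] with x hx
  simp only [Pi.zero_apply]
  rcases lt_trichotomy (f x) 0 with h0 | h0 | h0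
  · exfalso
    rw [ENNReal.ofReal_of_nonpos h0.le] at hx
    have := ENNReal.ofReal_pos.2 (neg_pos.2 h0)
    rw [← hx] at this
    exact lt_irrefl _ this
  · exact h0
  · exfalso
    rw [ENNReal.ofReal_of_nonpos (by linarith : -f x ≤ 0)] at hx
    have := ENNReal.ofReal_pos.2 h0
    rw [hx] at this
    exact lt_irrefl _ this

theorem memLp_poly (p : Polynomial ℝ) : MemLp (fun x => p.eval x) 2 (gaussianReal 0 1) := by
  rw [memLp_two_iff_integrable_sq p.continuous.aestronglyMeasurable]
  have h := integrable_poly (p * p) (μ := gaussianReal 0 1) le_rfl fun k _ => integrable_pow_gauss k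
  simpa [sq] using h

/-- the polynomials in the space `L²` of the Gaussian measure -/
def PS : Submodule ℝ (Lp ℝ 2 (gaussianReal 0 1)) where
  carrier := {u | ∃ p : Polynomial ℝ, (u : ℝ → ℝ) =ᵐ[gaussianReal 0 1] fun x => p.eval x}
  add_mem' := by
    rintro u v ⟨p, hp⟩ ⟨q, hq⟩
    refine ⟨p + q, ?_⟩
    filter_upwards [Lp.coeFn_add u v, hp, hq] with x h1 h2 h3
    rw [h1, Pi.add_apply, h2, h3, Polynomial.eval_add]
  zero_mem' := by
    refine ⟨0, ?_⟩
    filter_upwards [Lp.coeFn_zero ℝ 2 (gaussianReal 0 1)] with x h1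
    rw [h1]
    simp
  smul_mem' := by
    rintro c u ⟨p, hp⟩
    refine ⟨Polynomial.C c * p, ?_⟩
    filter_upwards [Lp.coeFn_smul c u, hp] with x h1 h2
    rw [h1, Pi.smul_apply, h2, smul_eq_mul, Polynomial.eval_mul, Polynomial.eval_C]

theorem PS_dense : PS.topologicalClosure = ⊤ := by
  rw [Submodule.topologicalClosure_eq_top_iff, Submodule.eq_bot_iff]
  intro u hu
  rw [Lp.eq_zero_iff_ae_eq_zero]
  refine ae_zero (Lp.memLp u) fun k => ?_
  have hm := memLp_poly (Polynomial.X ^ k)
  have h1 : hm.toLp _ ∈ PS := ⟨Polynomial.X ^ k, hm.coeFn_toLp⟩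
  have h2 := (Submodule.mem_orthogonal' PS u).1 hu _ h1
  rw [MeasureTheory.L2.inner_def] at h2
  refine Eq.trans ?_ h2
  refine integral_congr_ae ?_
  filter_upwards [hm.coeFn_toLp] with x hx
  rw [hx]
  simp [mul_comm]

theorem exists_poly {g : ℝ → ℝ} (hg : MemLp g 2 (gaussianReal 0 1)) {η : ℝ} (hη : 0 < η) :
    ∃ p : Polynomial ℝ, ∫ x, (g x - p.eval x) ^ 2 ∂(gaussianReal 0 1) ≤ η := by
  have h1 : hg.toLp g ∈ PS.topologicalClosure := by
    rw [PS_dense]
    trivial
  rw [← SetLike.mem_coe, Submodule.topologicalClosure_coe, Metric.mem_closure_iff] at h1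
  obtain ⟨v, ⟨p, hp⟩, hv⟩ := h1 (Real.sqrt η) (Real.sqrt_pos.2 hη)
  refine ⟨p, ?_⟩
  have h2 : ∫ x, (g x - p.eval x) ^ 2 ∂(gaussianReal 0 1) = ‖hg.toLp g - v‖ ^ 2 := by
    rw [← real_inner_self_eq_norm_sq, MeasureTheory.L2.inner_def]
    refine integral_congr_ae ?_
    filter_upwards [Lp.coeFn_sub (hg.toLp g) v, hg.coeFn_toLp, hp] with x a1 a2 a3
    rw [a1, Pi.sub_apply, a2, a3]
    simp [sq]
  rw [h2, ← Real.sq_sqrt hη.le]
  rw [dist_eq_norm] at hv
  exact pow_le_pow_left₀ (norm_nonneg _) hv.le 2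

end

end Pool.Agent.Q261.UM
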