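import Pool.Agent.Q97.UM.Stm18
import Pool.Agent.Q261.UM.PolyDense

set_option autoImplicit false

namespace Pool.Agent.Q261.UM

open Filter Topology MeasureTheory Complex ProbabilityTheory Pool.Agent.Q224.UM

noncomputable section

/-- Convergence of the integrals of bounded continuous functions (compare `half_lines`). -/
theorem tendsto_bdd (μ : ℕ → Measure ℝ) [∀ n, IsFiniteMeasure (μ n)]
    (h : ∀ n k : ℕ, k ≤ 2 * n → Integrable (fun x : ℝ => x ^ k) (μ n) ∧
      |(∫ x, x ^ k ∂(μ n)) - ∫ x, x ^ k ∂(gaussianReal 0 1)| ≤ 1 / (n + 1 : ℝ))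
    (f : BoundedContinuousFunction ℝ ℝ) :
    Tendsto (fun n => ∫ x, f x ∂(μ n)) atTop (𝓝 (∫ x, f x ∂(gaussianReal 0 1))) := by
  have hmass : ∀ n : ℕ, |(μ n).real Set.univ - 1| ≤ 1 / (n + 1 : ℝ) := by
    intro n
    have := (h n 0 (Nat.zero_le _)).2
    simpa using this
  have hlim : Tendsto (fun n => (μ n).real Set.univ) atTop (𝓝 1) := by
    rw [tendsto_iff_norm_sub_tendsto_zero]
    exact squeeze_zero (fun n => norm_nonneg _) (fun n => hmass n)
      tendsto_one_div_add_atTop_nhds_zero_nat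
  have hpos : ∀ᶠ n in atTop, 0 < (μ n).real Set.univ := hlim.eventually (lt_mem_nhds one_pos)
  classical
  set P : ℕ → Measure ℝ := fun n => if 0 < (μ n).real Set.univ then
    (μ n Set.univ)⁻¹ • μ n else gaussianReal 0 1 with hP
  have hPp : ∀ n, IsProbabilityMeasure (P n) := by
    intro n
    by_cases hn : 0 < (μ n).real Set.univ
    · simp only [hP, if_pos hn]
      have hne : μ n Set.univ ≠ 0 := by
        intro h0
        rw [Measure.real, h0] at hn
        simp at hn
      exact ⟨by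
        rw [Measure.smul_apply, smul_eq_mul]
        exact ENNReal.inv_mul_cancel hne (measure_ne_top _ _)⟩
    · simp only [hP, if_neg hn]
      infer_instance
  have hcf : ∀ t : ℝ, Tendsto (fun n => charFun (P n) t) atTop
      (𝓝 (charFun (gaussianReal 0 1) t)) := by
    intro t
    have h1 := tendsto_of_moments μ h t
    have h2 : Tendsto (fun n => (((μ n).real Set.univ : ℝ) : ℂ)⁻¹ * charFun (μ n) t) atTop
        (𝓝 ((1 : ℂ)⁻¹ * charFun (gaussianReal 0 1) t)) := by
      refine Tendsto.mul (Tendsto.inv₀ ?_ one_ne_zero) h1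
      exact_mod_cast (Complex.continuous_ofReal.tendsto 1).comp hlim
    rw [inv_one, one_mul] at h2
    refine h2.congr' ?_
    filter_upwards [hpos] with n hn
    simp only [hP, if_pos hn]
    rw [charFun_apply_real, charFun_apply_real, integral_smul_measure, Complex.real_smul]
    rw [ENNReal.toReal_inv, Measure.real, Complex.ofReal_inv]
  let Q : ℕ → ProbabilityMeasure ℝ := fun n => ⟨P n, hPp n⟩
  let G : ProbabilityMeasure ℝ := ⟨gaussianReal 0 1, inferInstance⟩
  have hweak : Tendsto Q atTop (𝓝 G) :=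
    ProbabilityMeasure.tendsto_iff_tendsto_charFun.2 fun t => hcf t
  have hint : Tendsto (fun n => ∫ x, f x ∂(P n)) atTop (𝓝 (∫ x, f x ∂(gaussianReal 0 1))) :=
    (ProbabilityMeasure.tendsto_iff_forall_integral_tendsto.1 hweak) f
  have hmul := hlim.mul hint
  rw [one_mul] at hmul
  refine hmul.congr' ?_
  filter_upwards [hpos] with n hn
  simp only [hP, if_pos hn]
  rw [integral_smul_measure, ENNReal.toReal_inv, smul_eq_mul]
  rw [← mul_assoc]
  rw [show (μ n).real Set.univ * ((μ n Set.univ).toReal)⁻¹ = 1 from mul_inv_cancel₀ hn.ne', one_mul]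

theorem unif {f : ℝ → ℝ} (hf : Continuous f) {C : ℝ} (hC : ∀ x, |f x| ≤ C) {ε : ℝ} (hε : 0 < ε) :
    ∃ n : ℕ, ∀ μ : Measure ℝ, IsFiniteMeasure μ →
    (∀ k : ℕ, k ≤ 2 * n → Integrable (fun x : ℝ => x ^ k) μ ∧
      |(∫ x, x ^ k ∂μ) - ∫ x, x ^ k ∂(gaussianReal 0 1)| ≤ 1 / (n + 1 : ℝ)) →
    |(∫ x, f x ∂μ) - ∫ x, f x ∂(gaussianReal 0 1)| ≤ ε := by
  by_contra hcon
  push Not at hcon
  choose μ hfin hm hlt using hcon
  have h2 := tendsto_bdd μ hm (BoundedContinuousFunction.ofNormedAddCommGroup f hf C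
    fun x => by rw [Real.norm_eq_abs]; exact hC x)
  simp only [BoundedContinuousFunction.coe_ofNormedAddCommGroup] at h2
  rw [tendsto_iff_norm_sub_tendsto_zero] at h2
  have h3 := ge_of_tendsto' h2 fun n => (hlt n).le
  linarith

/-- tent functions -/
theorem exists_tent (a b : ℝ) {ε : ℝ} (hε : 0 < ε) : ∃ g : ℝ → ℝ, Continuous g ∧ (∀ x, 0 ≤ g x) ∧
    (∀ x, g x ≤ 1) ∧ (∀ x, x ∉ Set.Ioo a b → g x = 0) ∧
    (gaussianReal 0 1).real (Set.Ioo a b) - ε ≤ ∫ x, g x ^ 2 ∂(gaussianReal 0 1) := by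
  set g : ℕ → ℝ → ℝ := fun n x => min 1 (n * max 0 (min (x - a) (b - x))) with hg
  have hc : ∀ n, Continuous (g n) := fun n => by
    simp only [hg]
    fun_prop
  have h0 : ∀ n x, 0 ≤ g n x := fun n x => by
    simp only [hg]
    exact le_min zero_le_one (mul_nonneg (Nat.cast_nonneg _) (le_max_left _ _))
  have h1 : ∀ n x, g n x ≤ 1 := fun n x => min_le_left _ _
  have hz : ∀ n x, x ∉ Set.Ioo a b → g n x = 0 := by
    intro n x hx
    have : min (x - a) (b - x) ≤ 0 := by
      rw [Set.mem_Ioo, not_and_or, not_lt, not_lt] at hx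
      rcases hx with hx | hx
      · exact (min_le_left _ _).trans (by linarith)
      · exact (min_le_right _ _).trans (by linarith)
    simp only [hg]
    rw [max_eq_left this, mul_zero]
    exact min_eq_right zero_le_one
  have hl : Tendsto (fun n => ∫ x, g n x ^ 2 ∂(gaussianReal 0 1)) atTop
      (𝓝 (∫ x, (Set.Ioo a b).indicator (fun _ => (1 : ℝ)) x ∂(gaussianReal 0 1))) := by
    refine tendsto_integral_of_dominated_convergence (fun _ => (1 : ℝ))
      (fun n => ((hc n).pow 2).aestronglyMeasurable) (integrable_const _) (fun n => ?_) ?_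
    · refine Filter.Eventually.of_forall fun x => ?_
      rw [Real.norm_of_nonneg (sq_nonneg _)]
      exact pow_le_one₀ (h0 n x) (h1 n x)
    · refine Filter.Eventually.of_forall fun x => ?_
      by_cases hx : x ∈ Set.Ioo a b
      · rw [Set.indicator_of_mem hx]
        refine tendsto_const_nhds.congr' ?_
        have hm : 0 < min (x - a) (b - x) := lt_min (by linarith [hx.1]) (by linarith [hx.2])
        obtain ⟨N, hN⟩ := exists_nat_gt (1 / min (x - a) (b - x))
        filter_upwards [eventually_ge_atTop N] with n hn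
        have hN' : (N : ℝ) ≤ n := by exact_mod_cast hn
        have h2 : 1 ≤ (n : ℝ) * max 0 (min (x - a) (b - x)) := by
          rw [max_eq_right hm.le]
          have := (div_lt_iff₀ hm).1 hN
          nlinarith
        simp only [hg]
        rw [min_eq_left h2]
        norm_num
      · rw [Set.indicator_of_notMem hx]
        refine tendsto_const_nhds.congr fun n => ?_
        rw [hz n x hx]
        norm_num
  rw [integral_indicator measurableSet_Ioo] at hl
  simp only [integral_const, MeasurableSet.univ, measureReal_restrict_apply, Set.univ_inter,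
    smul_eq_mul, mul_one] at hl
  obtain ⟨n, hn⟩ := (hl.eventually (lt_mem_nhds (sub_lt_self _ hε))).exists
  exact ⟨g n, hc n, h0 n, h1 n, hz n, hn.le⟩

theorem pt (s u v : ℝ) (hs : 0 < s) :
    (1 - s) * v ^ 2 - 1 / s * (u - v) ^ 2 ≤ u ^ 2 := by
  have h : u ^ 2 - ((1 - s) * v ^ 2 - 1 / s * (u - v) ^ 2) =
      (1 / s) * (s * u + (1 - s) * (u - v)) ^ 2 + (u - v) ^ 2 := by
    field_simp
    ring
  have h2 : 0 ≤ (1 / s) * (s * u + (1 - s) * (u - v)) ^ 2 + (u - v) ^ 2 := by positivity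
  linarith

theorem t_ABS : Pool.Agent.Q97.UM.S_ABS := by
  intro a b ε hab hε
  -- constants
  set ε₀ : ℝ := min ε 1 with hε₀
  have hε0 : 0 < ε₀ := lt_min hε one_pos
  have hε1 : ε₀ ≤ 1 := min_le_right _ _
  have hεε : ε₀ ≤ ε := min_le_left _ _
  set s : ℝ := ε₀ / 16 with hs
  have hs0 : 0 < s := by positivity
  have hs1 : s ≤ 1 := by rw [hs]; linarith
  set η : ℝ := s * ε₀ / 24 with hη
  have hη0 : 0 < η := by positivity
  obtain ⟨g, gc, g0, g1, gz, gI⟩ := exists_tent a b (ε := ε₀ / 4) (by positivity)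
  have gabs : ∀ x, |g x| ≤ 1 := fun x => by rw [abs_of_nonneg (g0 x)]; exact g1 x
  have gmem : MemLp g 2 (gaussianReal 0 1) :=
    MemLp.of_bound gc.aestronglyMeasurable 1 (Filter.Eventually.of_forall fun x => by
      rw [Real.norm_eq_abs]; exact gabs x)
  obtain ⟨p, hp⟩ := exists_poly gmem hη0
  -- the bound of `p` on `[a, b]`
  obtain ⟨M, hM⟩ := (isCompact_Icc (a := a) (b := b)).exists_bound_of_continuousOn
    (f := fun x => p.eval x) p.continuous.continuousOn
  have hgp : ∀ x, |g x * p.eval x| ≤ |M| := by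
    intro x
    by_cases hx : x ∈ Set.Ioo a b
    · rw [abs_mul]
      have h1 := hM x (Set.Ioo_subset_Icc_self hx)
      rw [Real.norm_eq_abs] at h1
      calc |g x| * |p.eval x| ≤ 1 * |p.eval x| :=
            mul_le_mul_of_nonneg_right (gabs x) (abs_nonneg _)
        _ = |p.eval x| := one_mul _
        _ ≤ M := h1
        _ ≤ |M| := le_abs_self _
    · rw [gz x hx, zero_mul, abs_zero]
      exact abs_nonneg _
  have hg2 : ∀ x, |g x ^ 2| ≤ 1 := by
    intro x
    rw [abs_of_nonneg (sq_nonneg _)]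
    exact pow_le_one₀ (g0 x) (g1 x)
  have gpc : Continuous (fun x => g x * p.eval x) := gc.mul p.continuous
  have gc2 : Continuous (fun x => g x ^ 2) := gc.pow 2
  obtain ⟨n₁, hn₁⟩ := unif gc2 hg2 (ε := η / 4) (by positivity)
  obtain ⟨n₂, hn₂⟩ := unif gpc hgp (ε := η / 4) (by positivity)
  set B : ℝ := ∑ i ∈ Finset.range (2 * p.natDegree + 1), |(p * p).coeff i| with hB
  have hB0 : 0 ≤ B := Finset.sum_nonneg fun i _ => abs_nonneg _
  have hdeg : (p * p).natDegree ≤ 2 * p.natDegree := by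
    have := Polynomial.natDegree_mul_le (p := p) (q := p)
    omega
  set ε' : ℝ := min (ε₀ / 8) (min (η / (4 * (B + 1))) (min (1 / (n₁ + 1 : ℝ)) (1 / (n₂ + 1 : ℝ))))
    with hε'
  have e0 : 0 < ε' := by
    rw [hε']
    refine lt_min (by positivity) (lt_min (by positivity) (lt_min (by positivity) (by positivity)))
  have e1 : ε' ≤ ε₀ / 8 := min_le_left _ _
  have e2 : ε' ≤ η / (4 * (B + 1)) := (min_le_right _ _).trans (min_le_left _ _)
  have e3 : ε' ≤ 1 / (n₁ + 1 : ℝ) :=
    (min_le_right _ _).trans ((min_le_right _ _).trans (min_le_left _ _))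
  have e4 : ε' ≤ 1 / (n₂ + 1 : ℝ) :=
    (min_le_right _ _).trans ((min_le_right _ _).trans (min_le_right _ _))
  refine ⟨max (2 * p.natDegree) (max (2 * n₁) (2 * n₂)), p, ε', e0, le_max_left _ _, ?_⟩
  intro κ hκ0 hκ1 μ ν hμ hνμ hmom hν
  have hνf : IsFiniteMeasure ν := isFiniteMeasure_of_le μ hνμ
  -- closeness of the three integrals
  have c1 := hn₁ μ hμ fun k hk =>
    ⟨(hmom k (hk.trans ((le_max_left _ _).trans (le_max_right _ _)))).1,
      (hmom k (hk.trans ((le_max_left _ _).trans (le_max_right _ _)))).2.trans e3⟩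
  have c2 := hn₂ μ hμ fun k hk =>
    ⟨(hmom k (hk.trans ((le_max_right _ _).trans (le_max_right _ _)))).1,
      (hmom k (hk.trans ((le_max_right _ _).trans (le_max_right _ _)))).2.trans e4⟩
  have c3 := poly_close (p * p) (μ := μ) hdeg (e := ε') fun k hk => hmom k (hk.trans (le_max_left _ _))
  have ppi : Integrable (fun x => p.eval x ^ 2) μ := by
    have := integrable_poly (p * p) (μ := μ) hdeg fun k hk => (hmom k (hk.trans (le_max_left _ _))).1
    simpa [sq] using this
  have ppG : Integrable (fun x => p.eval x ^ 2) (gaussianReal 0 1) := by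
    have := integrable_poly (p * p) (μ := gaussianReal 0 1) hdeg fun k _ => integrable_pow_gauss k
    simpa [sq] using this
  have ppν : Integrable (fun x => p.eval x ^ 2) ν := ppi.mono_measure hνμ
  have bI : ∀ (m : Measure ℝ) [IsFiniteMeasure m], Integrable (fun x => g x ^ 2) m ∧
      Integrable (fun x => g x * p.eval x) m := by
    intro m _
    refine ⟨?_, ?_⟩
    · exact Integrable.mono' (integrable_const (1 : ℝ)) (gc.pow 2).aestronglyMeasurable
        (Filter.Eventually.of_forall fun x => by rw [Real.norm_eq_abs]; exact hg2 x)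
    · exact Integrable.mono' (integrable_const (|M|)) gpc.aestronglyMeasurable
        (Filter.Eventually.of_forall fun x => by rw [Real.norm_eq_abs]; exact hgp x)
  have hexp : ∀ (m : Measure ℝ) [IsFiniteMeasure m], Integrable (fun x => p.eval x ^ 2) m →
      Integrable (fun x => (g x - p.eval x) ^ 2) m ∧
      ∫ x, (g x - p.eval x) ^ 2 ∂m = (∫ x, g x ^ 2 ∂m) - 2 * (∫ x, g x * p.eval x ∂m) +
        ∫ x, p.eval x ^ 2 ∂m := by
    intro m _ hm
    obtain ⟨i1, i2⟩ := bI m
    have he : (fun x => (g x - p.eval x) ^ 2) =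
        fun x => g x ^ 2 - 2 * (g x * p.eval x) + p.eval x ^ 2 := by
      funext x
      ring
    rw [he]
    have i3 : Integrable (fun x => g x ^ 2 - 2 * (g x * p.eval x)) m := i1.sub (i2.const_mul 2)
    refine ⟨i3.add hm, ?_⟩
    rw [integral_add i3 hm, integral_sub i1 (i2.const_mul 2), integral_const_mul]
  obtain ⟨-, hDG⟩ := hexp (gaussianReal 0 1) ppG
  obtain ⟨iDμ, hDμ⟩ := hexp μ ppi
  obtain ⟨iDν, -⟩ := hexp ν ppν
  obtain ⟨iDG, -⟩ := hexp (gaussianReal 0 1) ppG
  have c3' : |(∫ x, p.eval x ^ 2 ∂μ) - ∫ x, p.eval x ^ 2 ∂(gaussianReal 0 1)| ≤ η / 4 := by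
    have h1 : B * ε' ≤ η / 4 := by
      have h2 : B * ε' ≤ (B + 1) * (η / (4 * (B + 1))) :=
        mul_le_mul (by linarith) e2 e0.le (by linarith)
      have h3 : (B + 1) * (η / (4 * (B + 1))) = η / 4 := by
        have : B + 1 ≠ 0 := by linarith
        field_simp
      linarith
    have he : ∀ x : ℝ, (p * p).eval x = p.eval x ^ 2 := fun x => by rw [Polynomial.eval_mul, sq]
    simp only [he] at c3
    exact c3.trans h1
  have hDle : ∫ x, (g x - p.eval x) ^ 2 ∂μ ≤ 2 * η := by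
    have a1 := abs_le.1 c1
    have a2 := abs_le.1 c2
    have a3 := abs_le.1 c3'
    rw [hDG] at hp
    rw [hDμ]
    linarith [a1.2, a2.1, a3.2]
  have hDν : ∫ x, (g x - p.eval x) ^ 2 ∂ν ≤ 2 * η :=
    (integral_mono_measure hνμ (Filter.Eventually.of_forall fun x => sq_nonneg _) iDμ).trans hDle
  -- the lower bound
  have k1 : (1 - s) * (∫ x, p.eval x ^ 2 ∂ν) - 1 / s * (∫ x, (g x - p.eval x) ^ 2 ∂ν) ≤
      ∫ x, g x ^ 2 ∂ν := by
    rw [← integral_const_mul, ← integral_const_mul,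
      ← integral_sub (ppν.const_mul _) (iDν.const_mul _)]
    exact integral_mono ((ppν.const_mul _).sub (iDν.const_mul _)) (bI ν).1
      fun x => pt s (g x) (p.eval x) hs0
  have k2 : (1 - s) * (∫ x, g x ^ 2 ∂(gaussianReal 0 1)) -
      1 / s * (∫ x, (g x - p.eval x) ^ 2 ∂(gaussianReal 0 1)) ≤
      ∫ x, p.eval x ^ 2 ∂(gaussianReal 0 1) := by
    rw [← integral_const_mul, ← integral_const_mul,
      ← integral_sub ((bI _).1.const_mul _) (iDG.const_mul _)]
    refine integral_mono (((bI _).1.const_mul _).sub (iDG.const_mul _)) ppG fun x => ?_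
    have := pt s (p.eval x) (g x) hs0
    simp only
    have h2 : (p.eval x - g x) ^ 2 = (g x - p.eval x) ^ 2 := by ring
    rw [h2] at this
    exact this
  have k3 : ∫ x, g x ^ 2 ∂ν ≤ ν.real (Set.Ioo a b) := by
    have h1 : ∫ x, g x ^ 2 ∂ν ≤ ∫ x, (Set.Ioo a b).indicator (fun _ => (1 : ℝ)) x ∂ν := by
      refine integral_mono (bI ν).1 ((integrable_const (1 : ℝ)).indicator measurableSet_Ioo)
        fun x => ?_
      by_cases hx : x ∈ Set.Ioo a b
      · simp only
        rw [Set.indicator_of_mem hx]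
        exact pow_le_one₀ (g0 x) (g1 x)
      · simp only
        rw [Set.indicator_of_notMem hx, gz x hx]
        norm_num
    rw [integral_indicator measurableSet_Ioo] at h1
    simpa [integral_const, measureReal_restrict_apply] using h1
  have hsη : 1 / s * η = ε₀ / 24 := by
    rw [hη]
    field_simp
  set Γ : ℝ := (gaussianReal 0 1).real (Set.Ioo a b) with hΓ
  have hΓ0 : 0 ≤ Γ := measureReal_nonneg
  have hΓ1 : Γ ≤ 1 := by
    rw [hΓ]
    exact measureReal_le_one
  set PG : ℝ := ∫ x, p.eval x ^ 2 ∂(gaussianReal 0 1) with hPG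
  set GG : ℝ := ∫ x, g x ^ 2 ∂(gaussianReal 0 1) with hGG
  set DG : ℝ := ∫ x, (g x - p.eval x) ^ 2 ∂(gaussianReal 0 1) with hDGd
  set Pν : ℝ := ∫ x, p.eval x ^ 2 ∂ν with hPν
  set Dν : ℝ := ∫ x, (g x - p.eval x) ^ 2 ∂ν with hDνd
  -- lower bound of `PG`
  have l1 : Γ - ε₀ / 4 - s - ε₀ / 24 ≤ PG := by
    have h1 : 1 / s * DG ≤ ε₀ / 24 := by
      rw [← hsη]
      exact mul_le_mul_of_nonneg_left hp (by positivity)
    have h2 : (1 - s) * (Γ - ε₀ / 4) ≤ (1 - s) * GG :=
      mul_le_mul_of_nonneg_left gI (by linarith)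
    have h3 : s * Γ ≤ s * 1 := mul_le_mul_of_nonneg_left hΓ1 hs0.le
    nlinarith [mul_pos hs0 hε0]
  have l2 : κ * (Γ - ε₀ / 4 - s - ε₀ / 24) ≤ κ * PG := mul_le_mul_of_nonneg_left l1 hκ0
  have l3 : κ * Γ - (ε₀ / 4 + s + ε₀ / 24) ≤ κ * PG := by
    have : κ * (ε₀ / 4 + s + ε₀ / 24) ≤ 1 * (ε₀ / 4 + s + ε₀ / 24) :=
      mul_le_mul_of_nonneg_right hκ1 (by positivity)
    linarith
  have l4 : κ * Γ - (ε₀ / 4 + s + ε₀ / 24) - ε₀ / 8 ≤ Pν := by linarith
  have l5 : 1 / s * Dν ≤ ε₀ / 12 := by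
    have : 1 / s * Dν ≤ 1 / s * (2 * η) := mul_le_mul_of_nonneg_left hDν (by positivity)
    linarith
  have l6 : (1 - s) * (κ * Γ - (ε₀ / 4 + s + ε₀ / 24) - ε₀ / 8) ≤ (1 - s) * Pν :=
    mul_le_mul_of_nonneg_left l4 (by linarith)
  have hκΓ : κ * Γ ≤ 1 := by
    calc κ * Γ ≤ 1 * 1 := mul_le_mul hκ1 hΓ1 hΓ0 zero_le_one
      _ = 1 := one_mul _
  have l7 : s * (κ * Γ) ≤ s * 1 := mul_le_mul_of_nonneg_left hκΓ hs0.le
  have l8 : 0 ≤ s * ((ε₀ / 4 + s + ε₀ / 24) + ε₀ / 8) := by positivity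
  nlinarith [hs]

end

end Pool.Agent.Q261.UM
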